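import Pool.Agent.helper54.V3.SpecE

set_option autoImplicit false

open Complex Metric Set Filter Topology MeasureTheory

noncomputable section

namespace V3

theorem ENDG (hGTR : GTR_stmt) (hFEND : FEND_stmt) (hPEN : PEN_stmt) : ENDG_stmt := by
  intro P A g B v q θ hL
  rcases hGTR P A g B v q θ hL with hfin | ⟨t, ht, hP, hA⟩
  · exact Or.inl (hFEND P A g B v q θ hL hfin)
  · obtain ⟨t', c', h1, h2, h3, h4, h5⟩ := hPEN P A g B v q θ t hL ht hP hA
    exact Or.inr ⟨t', c', h1, h2, hA, h3, h4, h5⟩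

end V3
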