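import Pool.Agent.helper36.V3.SpecW

set_option autoImplicit false

open Complex Metric Set Filter Topology MeasureTheory MPS Pool.Agent.helper98.ILF Pool.Agent.helper16.Multibrot

noncomputable section

namespace V3W

theorem FV (hBIG : MPS.ZBIG_stmt) (hK1 : MPS.ZK1_stmt) (hCYC : MPS.ZCYC_stmt) (hTG : MPS.TG_stmt)
    (hZL : MPS.ZL_stmt) (hLGN : LGN_stmt) (hTHV : THV_stmt) : FV_stmt := by
  intro n hn K hK
  obtain ⟨ε₁, hε₁, hT⟩ := hTHV n K hn hK
  have hK1' : 0 < 1 / (12 * (K + 1)) := by positivity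
  refine ⟨min (min ε₁ (1 / 3)) (1 / (12 * (K + 1))),
    lt_min (lt_min hε₁ (by norm_num)) hK1', ?_⟩
  intro k U z hk hU hz hper c hc h1 hle
  have hle1 : ‖MPS.mlt n k c (z c) - 1‖ ≤ ε₁ :=
    hle.trans ((min_le_left _ _).trans (min_le_left _ _))
  have hle2 : ‖MPS.mlt n k c (z c) - 1‖ ≤ 1 / 3 :=
    hle.trans ((min_le_left _ _).trans (min_le_right _ _))
  have hle3 : ‖MPS.mlt n k c (z c) - 1‖ ≤ 1 / (12 * (K + 1)) := hle.trans (min_le_right _ _)
  have hfix : ∀ c ∈ U, (fc n c)^[k] (z c) = z c := by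
    intro c hc
    have h2 := Function.iterate_minimalPeriod (f := fc n c) (x := z c)
    rwa [hper c hc] at h2
  rcases le_total 3 ‖c‖ with h3 | h3
  · -- large parameters
    exfalso
    have h4 := hBIG n k c (z c) hn hk h3 (hfix c hc)
    have h5 : (3 / 2 : ℝ) ≤ (3 / 2 : ℝ) ^ k := le_self_pow₀ (by norm_num) hk.ne'
    have h6 : ‖MPS.mlt n k c (z c)‖ ≤ ‖MPS.mlt n k c (z c) - 1‖ + 1 := by
      calc ‖MPS.mlt n k c (z c)‖ = ‖(MPS.mlt n k c (z c) - 1) + 1‖ := by rw [sub_add_cancel]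
        _ ≤ ‖MPS.mlt n k c (z c) - 1‖ + ‖(1 : ℂ)‖ := norm_add_le _ _
        _ = ‖MPS.mlt n k c (z c) - 1‖ + 1 := by rw [norm_one]
    linarith
  by_cases hk1 : k = 1
  · subst hk1
    have h4 := hK1 n U z hn hU hz (fun c hc => by simpa using hfix c hc) c hc h3 h1
    have h5 := (hLGN.2.1 _ h1).2
    have h6 : (K + 1) * ‖MPS.mlt n 1 c (z c) - 1‖ ≤ 1 / 12 := by
      have h7 : (K + 1) * ‖MPS.mlt n 1 c (z c) - 1‖ ≤ (K + 1) * (1 / (12 * (K + 1))) :=
        mul_le_mul_of_nonneg_left hle3 (by linarith)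
      have h8 : (K + 1) * (1 / (12 * (K + 1))) = 1 / 12 := by field_simp
      rwa [h8] at h7
    linarith
  · have hk2 : 2 ≤ k := by omega
    have : NeZero k := ⟨hk.ne'⟩
    set b : ℂ → ZMod k → ℂ := fun c' i => (fc n c')^[i.val] (z c') with hb
    have hall : ∀ c' ∈ U, Function.Injective (b c') ∧
        (∀ i, b c' i ^ n + c' = b c' (i + 1)) ∧ MPS.rho n (b c') = MPS.mlt n k c' (z c') ∧
        (MPS.mlt n k c' (z c') ≠ 0 → MPS.IsCyc n c' (b c')) := by
      intro c' hc'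
      obtain ⟨b', hb1, hb2, hb3, hb4, hb5, hb6⟩ := hCYC n k c' (z c') hn (hper c' hc')
      have hbb : b' = b c' := by
        funext i
        have h4 := hb4 i.val
        rw [ZMod.natCast_zmod_val] at h4
        exact h4
      rw [← hbb]
      exact ⟨hb1, hb2, hb5, hb6⟩
    obtain ⟨_, _, hrho, hcyc'⟩ := hall c hc
    have hm0 : MPS.mlt n k c (z c) ≠ 0 := by
      intro h4
      rw [h4, norm_zero] at h1
      linarith
    have hcyc : MPS.IsCyc n c (b c) := hcyc' hm0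
    have hρ1 : MPS.rho n (b c) ≠ 1 := by
      intro h4
      rw [← hrho, h4, norm_one] at h1
      exact lt_irrefl _ h1
    obtain ⟨g, hg, -⟩ := hTG n k c (b c) hn hcyc hρ1
    have hder := hZL n k U b c g hn hU hc (fun i => FA_diff n U z hz i.val)
      (fun c' hc' => (hall c' hc').2.1) hcyc.ne0 hg
    have hev : (fun c' => MPS.rho n (b c')) =ᶠ[𝓝 c] fun c' => MPS.mlt n k c' (z c') := by
      filter_upwards [hU.mem_nhds hc] with c' hc'
      exact (hall c' hc').2.2.1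
    rw [hev.deriv_eq, hrho] at hder
    have h4 := hT k c (b c) g hk2 h3 hcyc (by rw [hrho]; exact h1)
      (by rw [hrho]; exact hle1) hg
    rw [hrho] at h4
    rw [hder]
    exact h4

end V3W
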