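import Pool.Agent.helper54.V3.SpecE

set_option autoImplicit false

open Complex Metric Set Filter Topology MeasureTheory

noncomputable section

namespace V3

theorem PSG_ZL (t : ℂ) : ZL (-t) = ZL t := by
  unfold ZL
  ext x
  constructor
  · rintro ⟨n, rfl⟩
    exact ⟨-n, by push_cast; ring⟩
  · rintro ⟨n, rfl⟩
    exact ⟨-n, by push_cast; ring⟩

theorem PSG (hPRAT : PRAT_stmt) (hPCN : PCN_stmt) : PSG_stmt := by
  intro P A g B v q θ t hL ht hP hA
  obtain ⟨α, β, γ, h1, h2⟩ := hPRAT P A g B v q θ t hL ht hP hA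
  rcases hPCN P A g B v q θ t α β γ hL ht hP h1 h2 with h | h
  · -- α = 0
    refine ⟨-t, γ, β, neg_ne_zero.2 ht, ?_, ?_, ?_⟩
    · rw [PSG_ZL, hP]
    · rw [h, zero_add] at h1
      rw [div_neg, neg_sq, ← h1, add_comm]
    · intro x hx
      rw [h2 x hx, h]
      have e1 : 2 * (Real.pi : ℂ) * I * x / -t = -(2 * Real.pi * I * x / t) := by
        rw [div_neg]
      rw [e1, exp_neg]
      set y := exp (2 * Real.pi * I * x / t) with hy
      have hy0 : y ≠ 0 := exp_ne_zero _
      by_cases hy1 : y = 1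
      · rw [hy1]; simp
      · have hy2 : y - 1 ≠ 0 := sub_ne_zero.2 hy1
        have hy3 : y⁻¹ - 1 ≠ 0 := by
          intro h3
          apply hy1
          have : y⁻¹ = 1 := by linear_combination h3
          have h4 := congrArg (fun z : ℂ => z⁻¹) this
          simpa using h4
        rw [div_eq_div_iff (pow_ne_zero 2 hy2) (pow_ne_zero 2 hy3)]
        field_simp
        ring
  · refine ⟨t, α, β, ht, hP, ?_, ?_⟩
    · rw [h, add_zero] at h1; exact h1
    · intro x hx
      rw [h2 x hx, h, add_zero]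

end V3
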