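import Pool.Agent.helper36.V3.SpecS

set_option autoImplicit false

open Complex Metric Set Filter Topology MeasureTheory MPS

noncomputable section

namespace PPS

theorem SEQ3_fail {f : Polynomial ℂ} {h : ℝ} {χ : ℂ → ℂ} {G0 : ℕ → ℂ → ℂ} {PP : Finset ℕ}
    {G G' : ℕ → ℂ → ℂ} {q : ℕ} {r : ℝ} (hG : G' q = G q)
    (hf : Fail3 f h χ G0 PP G q r) : Fail3 f h χ G0 PP G' q r := by
  unfold Fail3 at hf ⊢
  rw [hG]
  exact hf

theorem SEQ3 (hS : STEP3_stmt) : SEQ3_stmt := by
  intro n k _ f b g R ε h r₀ χ G0 PP M hSU
  have h0 := hSU.h0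
  have key : ∀ Q : ℕ, Q ≤ k → ∃ (T : ℕ → ℝ) (G : ℕ → ℂ → ℂ),
      H3 n k f b g R ε h r₀ χ G0 PP M T G Q ∧ T 0 = h ∧
      ∀ q < Q, ∀ r, T (q + 1) < r → r < T q → Fail3 f h χ G0 PP G q r := by
    intro Q
    induction Q with
    | zero =>
      intro _
      refine ⟨fun _ => h, fun _ => χ, ⟨hSU, ?_, Nat.zero_le _⟩, rfl,
        fun q hq => absurd hq (Nat.not_lt_zero _)⟩
      exact
        { t0 := le_rfl
          anti := fun q hq => absurd hq (Nat.not_lt_zero _)
          pos := fun q _ => h0
          g0 := rfl
          diff := fun q _ => hSU.nat.diff.mono (ball_subset_ball (by linarith))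
          rel := fun q hq => absurd hq (Nat.not_lt_zero _)
          val := fun q hq => by
            have hq0 : q = 0 := Nat.le_zero.1 hq
            subst hq0
            exact (hSU.t0 (mem_ball_self hSU.r0)).symm
          disj := fun q _ hq => absurd hq (Nat.not_lt_zero _) }
    | succ Q ih =>
      intro hQ
      obtain ⟨T, G, hH, hT0, hf⟩ := ih (Nat.le_of_succ_le hQ)
      obtain ⟨t', g', hH', hf'⟩ := hS n k f b g R ε h r₀ χ G0 PP M T G Q hH hQ
      refine ⟨Function.update T (Q + 1) t', Function.update G (Q + 1) g', hH', ?_, ?_⟩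
      · rw [Function.update_of_ne (Nat.succ_ne_zero Q).symm]
        exact hT0
      · intro q hq r h2 h3
        have e1 : Function.update T (Q + 1) t' q = T q := Function.update_of_ne (by omega) _ _
        have e2 : Function.update G (Q + 1) g' q = G q := Function.update_of_ne (by omega) _ _
        rw [e1] at h3
        apply SEQ3_fail e2
        rcases Nat.lt_succ_iff_lt_or_eq.1 hq with hq' | hq'
        · have e3 : Function.update T (Q + 1) t' (q + 1) = T (q + 1) :=
            Function.update_of_ne (by omega) _ _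
          rw [e3] at h2
          exact hf q hq' r h2 h3
        · subst hq'
          rw [Function.update_self] at h2
          exact hf' r h2 h3
  exact key k le_rfl

end PPS
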